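import Pool.Agent.MP_96eeb0_lc.H63.Virt

namespace Pool.Agent.Results.MP_96eeb0_lc.LargeNIP

open Pool.Agent.MP_96eeb0_lc.H32 Pool.Agent.MP_96eeb0_lc.H87

theorem result (K : Subfield ℝ) (hK : NIP K) (L : Type) [Field L] [Algebra K L]
    [FiniteDimensional K L] (hL : Large L) : IsRealClosed K :=
  Pool.Agent.MP_96eeb0_lc.H63.virt_real_closed K hK L hL

end Pool.Agent.Results.MP_96eeb0_lc.LargeNIP
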