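import Pool.Agent.MP_96eeb0_lc.H32.Main

namespace Pool.Agent.Results.MP_96eeb0_lc.OrderDefinable

open Pool.Agent.MP_96eeb0_lc.H32

theorem result (K : Subfield ℝ) (hK : NIP K) : ∃ (a : K) (n : ℕ), ∀ w : K,
    0 ≤ w ↔ ∃ f g : Fin n → K, w = ∑ i, f i ^ 2 + a * ∑ i, g i ^ 2 :=
  order_fin K hK

end Pool.Agent.Results.MP_96eeb0_lc.OrderDefinable
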