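import Pool.Agent.MP_96eeb0_lc.H32.Zfc

namespace Pool.Agent.Results.MP_96eeb0_lc.ShelahReduction

open Pool.Agent.MP_96eeb0_lc.H32

theorem result (K : Subfield ℝ) (hK : NIP K) (hr : ¬ IsRealClosed K) :
    ∃ L : Subfield ℝ, NIP L ∧ ∃ D : Set L, Definable D ∧ ¬ BorelIn L D :=
  zfc_case hK hr

end Pool.Agent.Results.MP_96eeb0_lc.ShelahReduction
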