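import Pool.Agent.MP_96eeb0_lc.H87.Main

namespace Pool.Agent.Results.MP_96eeb0_lc.StronglyNIP

open Pool.Agent.MP_96eeb0_lc.H87

theorem result (K : Subfield ℝ) (hK : SNIP K) : IsRealClosed K :=
  snip_real_closed K hK

end Pool.Agent.Results.MP_96eeb0_lc.StronglyNIP
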